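import Pool.Agent.Helper775.Clo.Thm

/-!
# Tight substantial closed surfaces in `ℝ^N`, `N ≥ 6`: the convex hull is a polytope

Positive answer to Q1 (Pohl's conjecture). The definitions `TightSurf`, `CechTightSurf` are in
`Pool/Agent/Helper775/Surf/TDefs.lean`, `Substantial` is in
`Pool/Agent/Helper775/Tight/SingDefs.lean`. Surfaces are Mathlib's compact connected Hausdorff
spaces with an atlas modelled on the Euclidean plane.

Idea. Extreme points of the hull have one preimage. If near an extreme point `p` all
one-dimensional faces of a slice had connected preimage, a circle of functionals would give a
closed set in a chart around the preimage of `p` contradicting the mod 2 cohomology of the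
punctured disc. So infinitely many extreme points give infinitely many two-dimensional faces with a
disconnected chord; by tightness each carries a non-zero class of `H^1(M; ℤ/2)` vanishing off its
preimage, and since this group is finite infinitely many have the same class `t`. Call two of them
good if the trivializations of `t` off their preimages agree up to a constant off the preimage of
the hull of the two faces. By Ramsey there is an infinite pairwise good family, or four faces which
are pairwise bad. In the first case the majority of five trivializations is a trivialization of `t`
off a set which can be removed by means of a planar lemma, so `t = 0`, a contradiction. Bad pairs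
exist only for `N = 6` and then the hull of the two faces is a hyperplane section of the hull of
the surface; four pairwise bad faces interlace, and a count of dimensions gives a contradiction.
-/

namespace Pool.Agent.Results.MP_beb0a3_gt.TightClosedPolytope

open Pool.Agent.Helper775.Tight Pool.Agent.Helper775.Surf
open scoped Manifold Topology

/-- Let `M` be a compact connected surface without boundary, `N ≥ 6`, and let `f : M → ℝ^N`
be a topological immersion (continuous and locally injective) which is substantial and tight
(singular homology mod 2, or Čech theory mod 2). Then the convex hull of `f(M)` is the convex hull
of finitely many points. -/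
theorem result {M : Type*} [TopologicalSpace M] [CompactSpace M] [T2Space M] [ConnectedSpace M]
    [ChartedSpace (EuclideanSpace ℝ (Fin 2)) M] {N : ℕ}
    (hN : 6 ≤ N) (f : M → EuclideanSpace ℝ (Fin N)) (hf : Continuous f)
    (hloc : ∀ x, ∃ U ∈ 𝓝 x, Set.InjOn f U) (hs : Substantial f)
    (ht : TightSurf f ∨ CechTightSurf f) :
    ∃ s : Finset (EuclideanSpace ℝ (Fin N)),
      convexHull ℝ (Set.range f) = convexHull ℝ (s : Set (EuclideanSpace ℝ (Fin N))) :=
  Pool.Agent.Helper775.Clo.final_closed hN f hf hloc hs ht

end Pool.Agent.Results.MP_beb0a3_gt.TightClosedPolytope
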